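import Mathlib

/-!
Predicates on natural numbers that are first-order definable from addition, divisibility by a
positive number and the constant one.  Graphs of all `Nat.Partrec` functions are definable.
-/

set_option autoImplicit false

namespace Pool.Agent.Lib.Arith

/-- first-order definability over the naturals with `+`, `x + 1 ∣ y` and `1` -/
inductive Ar : (α : Type) → ((α → ℕ) → Prop) → Prop
  | add {α : Type} (i j k : α) : Ar α fun v => v i + v j = v k
  | dvd {α : Type} (i j : α) : Ar α fun v => v i + 1 ∣ v j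
  | one {α : Type} (i : α) : Ar α fun v => v i = 1
  | not {α : Type} {P : (α → ℕ) → Prop} : Ar α P → Ar α fun v => ¬ P v
  | and {α : Type} {P Q : (α → ℕ) → Prop} : Ar α P → Ar α Q → Ar α fun v => P v ∧ Q v
  | ex {α : Type} {P : (Option α → ℕ) → Prop} :
      Ar (Option α) P → Ar α fun v => ∃ n : ℕ, P fun o => o.elim n v

variable {α : Type}

theorem Ar.of_iff {P Q : (α → ℕ) → Prop} (h : Ar α P) (e : ∀ v, P v ↔ Q v) : Ar α Q := by
  have : P = Q := funext fun v => propext (e v)
  rwa [← this]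

theorem Ar.reindex {P : (α → ℕ) → Prop} (h : Ar α P) :
    ∀ (β : Type) (g : α → β), Ar β fun v => P (v ∘ g) := by
  induction h with
  | add i j k => exact fun β g => Ar.add (g i) (g j) (g k)
  | dvd i j => exact fun β g => Ar.dvd (g i) (g j)
  | one i => exact fun β g => Ar.one (g i)
  | not _ ih => exact fun β g => (ih β g).not
  | and _ _ ih₁ ih₂ => exact fun β g => (ih₁ β g).and (ih₂ β g)
  | ex _ ih =>
    intro β g
    refine (ih (Option β) (Option.map g)).ex.of_iff fun v => exists_congr fun n => ?_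
    refine iff_of_eq (congrArg _ ?_)
    funext o
    cases o <;> rfl

theorem Ar.or {P Q : (α → ℕ) → Prop} (hP : Ar α P) (hQ : Ar α Q) : Ar α fun v => P v ∨ Q v :=
  (hP.not.and hQ.not).not.of_iff fun v => by tauto

theorem Ar.imp {P Q : (α → ℕ) → Prop} (hP : Ar α P) (hQ : Ar α Q) : Ar α fun v => P v → Q v :=
  (hP.and hQ.not).not.of_iff fun v => by tauto

theorem Ar.iff {P Q : (α → ℕ) → Prop} (hP : Ar α P) (hQ : Ar α Q) : Ar α fun v => P v ↔ Q v :=
  ((hP.imp hQ).and (hQ.imp hP)).of_iff fun v => by tauto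

theorem Ar.ex' {P : (α → ℕ) → ℕ → Prop}
    (h : Ar (Option α) fun w => P (fun i => w (some i)) (w none)) : Ar α fun v => ∃ n, P v n :=
  h.ex

theorem Ar.all' {P : (α → ℕ) → ℕ → Prop}
    (h : Ar (Option α) fun w => P (fun i => w (some i)) (w none)) : Ar α fun v => ∀ n, P v n :=
  (Ar.ex' (P := fun v n => ¬ P v n) h.not).not.of_iff fun v => by simp

theorem Ar.zero (i : α) : Ar α fun v => v i = 0 := (Ar.add i i i).of_iff fun v => by omega

theorem Ar.eqv (i j : α) : Ar α fun v => v i = v j :=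
  (Ar.ex' (P := fun v n => n = 0 ∧ v i + n = v j)
    ((Ar.zero none).and (Ar.add (some i) none (some j)))).of_iff fun v => by simp

/-- definable functions -/
def ArF (f : (α → ℕ) → ℕ) : Prop := Ar (Option α) fun w => w none = f fun i => w (some i)

theorem ArF.var (i : α) : ArF fun v : α → ℕ => v i := Ar.eqv none (some i)

theorem ArF.lift {f : (α → ℕ) → ℕ} (h : ArF f) :
    ArF fun w : Option α → ℕ => f fun i => w (some i) :=
  Ar.reindex h _ (Option.map some)

theorem Ar.bind {f : (α → ℕ) → ℕ} {P : (α → ℕ) → ℕ → Prop} (hf : ArF f)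
    (h : Ar (Option α) fun w => P (fun i => w (some i)) (w none)) : Ar α fun v => P v (f v) :=
  (Ar.ex' (P := fun v n => n = f v ∧ P v n) (Ar.and hf h)).of_iff fun v => by simp

theorem Ar.bind₂ {f g : (α → ℕ) → ℕ} (r : ℕ → ℕ → Prop) (hf : ArF f) (hg : ArF g)
    (h : Ar (Option (Option α)) fun w => r (w (some none)) (w none)) :
    Ar α fun v => r (f v) (g v) :=
  Ar.bind (P := fun v n => r n (g v)) hf
    (Ar.bind (P := fun w n => r (w none) n) hg.lift h)

theorem Ar.eq {f g : (α → ℕ) → ℕ} (hf : ArF f) (hg : ArF g) : Ar α fun v => f v = g v :=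
  Ar.bind₂ (· = ·) hf hg (Ar.eqv _ _)

theorem Ar.dvdF {f g : (α → ℕ) → ℕ} (hf : ArF f) (hg : ArF g) : Ar α fun v => f v + 1 ∣ g v :=
  Ar.bind₂ (fun x y => x + 1 ∣ y) hf hg (Ar.dvd _ _)

theorem ArF.add {f g : (α → ℕ) → ℕ} (hf : ArF f) (hg : ArF g) : ArF fun v => f v + g v :=
  Ar.bind (P := fun w n => w none = n + g fun i => w (some i)) hf.lift
    (Ar.bind (P := fun w n => w (some none) = w none + n) hg.lift.lift
      ((Ar.add (some none) none (some (some none))).of_iff fun _ => eq_comm))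

theorem ArF.const (n : ℕ) : ArF fun _ : α → ℕ => n := by
  induction n with
  | zero => exact Ar.zero none
  | succ n ih => exact ih.add (Ar.one none)

theorem lcm_iff (x t : ℕ) :
    (∀ w, t + 1 ∣ w ↔ (x + 1 ∣ w ∧ (x + 1) + 1 ∣ w)) ↔ t = x * x + 3 * x + 1 := by
  have hc : Nat.Coprime (x + 1) (x + 1 + 1) := by simp
  have e : (x + 1) * (x + 1 + 1) = x * x + 3 * x + 1 + 1 := by ring
  constructor
  · intro h
    have h1 := (h _).2 ⟨Dvd.intro _ e, Dvd.intro_left _ e⟩
    have h2 := (h _).1 dvd_rfl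
    have h3 := hc.mul_dvd_of_dvd_of_dvd h2.1 h2.2
    rw [e] at h3
    have := Nat.dvd_antisymm h1 h3
    omega
  · rintro rfl w
    rw [← e]
    exact ⟨fun h => ⟨(Dvd.intro _ rfl).trans h, (Dvd.intro_left _ rfl).trans h⟩,
      fun h => hc.mul_dvd_of_dvd_of_dvd h.1 h.2⟩

theorem ArF.quad {f : (α → ℕ) → ℕ} (hf : ArF f) : ArF fun v => f v * f v + 3 * f v + 1 :=
  (Ar.all' (P := fun w n => w none + 1 ∣ n ↔
      ((f fun i => w (some i)) + 1 ∣ n ∧ ((f fun i => w (some i)) + 1) + 1 ∣ n))
    ((Ar.dvd (some none) none).iff ((Ar.dvdF hf.lift.lift (ArF.var none)).and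
      (Ar.dvdF (hf.lift.lift.add (ArF.const 1)) (ArF.var none))))).of_iff fun _ => lcm_iff _ _

theorem ArF.mul {f g : (α → ℕ) → ℕ} (hf : ArF f) (hg : ArF g) : ArF fun v => f v * g v :=
  (Ar.eq (((hf.lift.quad.add hg.lift.quad).add (ArF.var none)).add (ArF.var none))
    ((hf.lift.add hg.lift).quad.add (ArF.const 1))).of_iff fun w => by
      constructor <;> intro h <;> nlinarith

theorem Ar.lt {f g : (α → ℕ) → ℕ} (hf : ArF f) (hg : ArF g) : Ar α fun v => f v < g v :=
  (Ar.ex' (P := fun v n => f v + n + 1 = g v)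
    (Ar.eq ((hf.lift.add (ArF.var none)).add (ArF.const 1)) hg.lift)).of_iff fun v =>
      ⟨fun ⟨_, h⟩ => by omega, fun h => ⟨g v - f v - 1, by omega⟩⟩

theorem ArF.pair {f g : (α → ℕ) → ℕ} (hf : ArF f) (hg : ArF g) :
    ArF fun v => Nat.pair (f v) (g v) :=
  (((Ar.lt hf.lift hg.lift).and (Ar.eq (ArF.var none) ((hg.lift.mul hg.lift).add hf.lift))).or
    ((Ar.lt hf.lift hg.lift).not.and
      (Ar.eq (ArF.var none) (((hf.lift.mul hf.lift).add hf.lift).add hg.lift)))).of_iff fun w => by
    unfold Nat.pair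
    dsimp only
    split_ifs with h <;> simp [h]

theorem ArF.unpair₁ {f : (α → ℕ) → ℕ} (hf : ArF f) : ArF fun v => (f v).unpair.1 :=
  (Ar.ex' (P := fun w n => (f fun i => w (some i)) = Nat.pair (w none) n)
    (Ar.eq hf.lift.lift ((ArF.var (some none)).pair (ArF.var none)))).of_iff fun w =>
      ⟨fun ⟨_, h⟩ => by dsimp only; rw [h, Nat.unpair_pair], fun h => ⟨_, by rw [h, Nat.pair_unpair]⟩⟩

theorem ArF.unpair₂ {f : (α → ℕ) → ℕ} (hf : ArF f) : ArF fun v => (f v).unpair.2 :=
  (Ar.ex' (P := fun w n => (f fun i => w (some i)) = Nat.pair n (w none))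
    (Ar.eq hf.lift.lift ((ArF.var none).pair (ArF.var (some none))))).of_iff fun w =>
      ⟨fun ⟨_, h⟩ => by dsimp only; rw [h, Nat.unpair_pair], fun h => ⟨_, by rw [h, Nat.pair_unpair]⟩⟩

theorem ArF.mod {f g : (α → ℕ) → ℕ} (hf : ArF f) (hg : ArF g) : ArF fun v => f v % (g v + 1) :=
  (Ar.ex' (P := fun w n => (f fun i => w (some i)) = w none + ((g fun i => w (some i)) + 1) * n ∧
      w none < (g fun i => w (some i)) + 1)
    ((Ar.eq hf.lift.lift ((ArF.var (some none)).add
      ((hg.lift.lift.add (ArF.const 1)).mul (ArF.var none)))).and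
      (Ar.lt (ArF.var (some none)) (hg.lift.lift.add (ArF.const 1))))).of_iff fun w =>
      ⟨fun ⟨_, h, h'⟩ => by dsimp only; rw [h, Nat.add_mul_mod_self_left, Nat.mod_eq_of_lt h'],
        fun h => ⟨_, by rw [h, Nat.mod_add_div], by rw [h]; exact Nat.mod_lt _ (Nat.succ_pos _)⟩⟩

theorem ArF.beta {f g : (α → ℕ) → ℕ} (hf : ArF f) (hg : ArF g) :
    ArF fun v => Nat.beta (f v) (g v) :=
  hf.unpair₁.mod ((hg.add (ArF.const 1)).mul hf.unpair₂)

theorem mem_rec_iff (o : Part ℕ) (g : ℕ → ℕ → Part ℕ) (n y : ℕ) :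
    y ∈ (Nat.rec (motive := fun _ => Part ℕ) o (fun k IH => IH.bind fun i => g k i) n) ↔
      ∃ s : ℕ, Nat.beta s 0 ∈ o ∧ (∀ i, i < n → Nat.beta s (i + 1) ∈ g i (Nat.beta s i)) ∧
        y = Nat.beta s n := by
  constructor
  · intro h
    have key : ∃ t : ℕ → ℕ, t 0 ∈ o ∧ (∀ i, i < n → t (i + 1) ∈ g i (t i)) ∧ y = t n := by
      induction n generalizing y with
      | zero => exact ⟨fun _ => y, h, by simp, rfl⟩
      | succ n ih =>
        obtain ⟨z, hz, hy⟩ := Part.mem_bind_iff.1 h
        obtain ⟨t, h0, h1, h2⟩ := ih z hz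
        refine ⟨fun i => if i = n + 1 then y else t i, by simpa using h0, fun i hi => ?_, by simp⟩
        rcases Nat.lt_succ_iff_lt_or_eq.1 hi with h3 | rfl
        · simp only [if_neg (show i + 1 ≠ n + 1 by omega), if_neg (show i ≠ n + 1 by omega)]
          exact h1 i h3
        · simpa [← h2] using hy
    obtain ⟨t, h0, h1, h2⟩ := key
    have hb : ∀ i, i ≤ n → Nat.beta (Nat.unbeta ((List.range (n + 1)).map t)) i = t i := by
      intro i hi
      have := Nat.beta_unbeta_coe ((List.range (n + 1)).map t) ⟨i, by simpa using Nat.lt_succ_of_le hi⟩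
      simpa using this
    refine ⟨Nat.unbeta ((List.range (n + 1)).map t), by rwa [hb 0 n.zero_le], fun i hi => ?_,
      by rwa [hb n le_rfl]⟩
    rw [hb _ hi, hb _ hi.le]
    exact h1 i hi
  · rintro ⟨s, h0, h1, rfl⟩
    induction n with
    | zero => exact h0
    | succ n ih =>
      exact Part.mem_bind_iff.2 ⟨_, ih fun i hi => h1 i (by omega), h1 n (by omega)⟩

theorem Ar.partrec {φ : ℕ →. ℕ} (h : Nat.Partrec φ) :
    ∀ (α : Type) (x y : (α → ℕ) → ℕ), ArF x → ArF y → Ar α fun v => y v ∈ φ (x v) := by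
  induction h with
  | zero =>
    exact fun α x y _ hy => (Ar.eq hy (ArF.const 0)).of_iff fun v => Part.mem_some_iff.symm
  | succ => exact fun α x y hx hy => (Ar.eq hy (hx.add (ArF.const 1))).of_iff fun v => by simp
  | left => exact fun α x y hx hy => (Ar.eq hy hx.unpair₁).of_iff fun v => by simp
  | right => exact fun α x y hx hy => (Ar.eq hy hx.unpair₂).of_iff fun v => by simp
  | @pair f g _ _ ihf ihg =>
    intro α x y hx hy
    refine ((ihf α x _ hx hy.unpair₁).and (ihg α x _ hx hy.unpair₂)).of_iff fun v => ?_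
    simp only [Seq.seq, Part.map_eq_map, Part.bind_eq_bind, Part.mem_bind_iff, Part.mem_map_iff]
    constructor
    · rintro ⟨h1, h2⟩
      exact ⟨_, ⟨_, h1, rfl⟩, _, h2, Nat.pair_unpair _⟩
    · rintro ⟨_, ⟨a, h1, rfl⟩, b, h2, e⟩
      rw [← e, Nat.unpair_pair]
      exact ⟨h1, h2⟩
  | @comp f g _ _ ihf ihg =>
    intro α x y hx hy
    refine (Ar.ex' (P := fun v n => n ∈ g (x v) ∧ y v ∈ f n)
      ((ihg _ _ _ hx.lift (ArF.var none)).and (ihf _ _ _ (ArF.var none) hy.lift))).of_iff
        fun v => ?_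
    simp
  | @prec f g _ _ ihf ihg =>
    intro α x y hx hy
    refine (Ar.ex' (P := fun v s => Nat.beta s 0 ∈ f (x v).unpair.1 ∧
        (∀ i, i < (x v).unpair.2 → Nat.beta s (i + 1) ∈
          g (Nat.pair (x v).unpair.1 (Nat.pair i (Nat.beta s i)))) ∧
        y v = Nat.beta s (x v).unpair.2)
      ((ihf _ _ _ hx.lift.unpair₁ ((ArF.var none).beta (ArF.const 0))).and (Ar.and
        (Ar.all' (P := fun w i => i < (x fun j => w (some j)).unpair.2 →
            Nat.beta (w none) (i + 1) ∈ g (Nat.pair (x fun j => w (some j)).unpair.1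
              (Nat.pair i (Nat.beta (w none) i))))
          ((Ar.lt (ArF.var none) hx.lift.lift.unpair₂).imp
            (ihg _ _ _ (hx.lift.lift.unpair₁.pair ((ArF.var none).pair
              ((ArF.var (some none)).beta (ArF.var none))))
              ((ArF.var (some none)).beta ((ArF.var none).add (ArF.const 1))))))
        (Ar.eq hy.lift ((ArF.var none).beta hx.lift.unpair₂))))).of_iff fun v => ?_
    exact (mem_rec_iff (f (x v).unpair.1)
      (fun k i => g (Nat.pair (x v).unpair.1 (Nat.pair k i))) _ _).symm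
  | @rfind f _ ih =>
    intro α x y hx hy
    refine ((ih α _ _ (hx.pair hy) (ArF.const 0)).and
      (Ar.all' (P := fun v m => m < y v → ∃ z, z + 1 ∈ f (Nat.pair (x v) m))
        ((Ar.lt (ArF.var none) hy.lift).imp
          (Ar.ex' (P := fun w z => z + 1 ∈ f (Nat.pair (x fun j => w (some j)) (w none)))
            (ih _ _ _ (hx.lift.lift.pair (ArF.var (some none)))
              ((ArF.var none).add (ArF.const 1))))))).of_iff fun v => ?_
    rw [Nat.mem_rfind]
    simp only [Part.map_eq_map, Part.mem_map_iff, decide_eq_true_eq, exists_eq_right,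
      decide_eq_false_iff_not]
    refine and_congr_right fun _ => forall_congr' fun m => imp_congr_right fun _ => ?_
    constructor
    · rintro ⟨z, hz⟩
      exact ⟨_, hz, by omega⟩
    · rintro ⟨z, hz, h0⟩
      obtain ⟨z, rfl⟩ := Nat.exists_eq_succ_of_ne_zero h0
      exact ⟨z, hz⟩

/-- There is a definable set of natural numbers that is not computable. -/
theorem exists_not_computable :
    ∃ K : ℕ → Prop, ¬ ComputablePred K ∧ Ar Unit fun v => K (v ()) := by
  have h : Partrec fun m : ℕ => Nat.Partrec.Code.eval (Denumerable.ofNat Nat.Partrec.Code m) 0 :=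
    Nat.Partrec.Code.eval_part.comp (Computable.ofNat _) (Computable.const 0)
  refine ⟨fun m => (Nat.Partrec.Code.eval (Denumerable.ofNat Nat.Partrec.Code m) 0).Dom,
    fun hc => ComputablePred.halting_problem 0 ?_, ?_⟩
  · refine ComputablePred.computable_of_manyOneReducible ⟨Encodable.encode, Computable.encode,
      fun c => ?_⟩ hc
    simp
  · refine (Ar.ex' (P := fun v y => y ∈
        Nat.Partrec.Code.eval (Denumerable.ofNat Nat.Partrec.Code (v ())) 0)
      (Ar.partrec (Partrec.nat_iff.1 h) _ _ _ (ArF.var (some ())) (ArF.var none))).of_iff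
        fun v => Part.dom_iff_mem.symm

end Pool.Agent.Lib.Arith
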